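import Mathlib

/-!
# The Tychonoff plank is not set-self-Tietze

On the union `A` of the right edge `{ω₁} × [0,ω]` and the top edge `[0,ω₁] × {ω}` of the plank
consider `f(α,ω) = {(0,0)}`, `f(ω₁,n) = {(1,0)}` and `f(ω₁,ω) = {(0,0),(1,0)}`. This is upper
semi-continuous and has no upper semi-continuous extension to the plank.
-/

set_option autoImplicit false

open Set Topology Filter Ordinal

namespace Pool.Agent.Results.MP_231ef3_gt.PlankNotSetSelfTietze

/-- `F` is an upper semi-continuous map from `Y` to the non-empty closed subsets of `X`. -/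
def IsUsc {Y X : Type*} [TopologicalSpace Y] [TopologicalSpace X] (F : Y → Set X) : Prop :=
  (∀ y, (F y).Nonempty ∧ IsClosed (F y)) ∧ ∀ U : Set X, IsOpen U → IsOpen {y | F y ⊆ U}

/-- `X` is set-self-Tietze: every upper semi-continuous map from a closed subset `A` of `X` to the
non-empty closed subsets of `X` has an upper semi-continuous extension to `X`. -/
def SetSelfTietze (X : Type*) [TopologicalSpace X] : Prop :=
  ∀ A : Set X, IsClosed A → ∀ f : A → Set X, IsUsc f → ∃ F : X → Set X, IsUsc F ∧ ∀ a : A, F a = f a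

/-- The Tychonoff plank `[0,ω₁] × [0,ω]`. -/
abbrev Plank : Type 1 := Set.Iic (ω₁ : Ordinal.{0}) × Set.Iic (ω : Ordinal.{0})

lemma not_isSuccLimit_nat (n : ℕ) : ¬ Order.IsSuccLimit (n : Ordinal.{0}) := fun h =>
  absurd (omega0_le_of_isSuccLimit h) (not_le.2 (natCast_lt_omega0 n))

/-- the point `ω₁` of `[0,ω₁]` -/
noncomputable def o1 : Set.Iic (ω₁ : Ordinal.{0}) := ⟨ω₁, Set.self_mem_Iic⟩

/-- the point `ω` of `[0,ω]` -/
def o0 : Set.Iic (ω : Ordinal.{0}) := ⟨ω, Set.self_mem_Iic⟩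

lemma nat_lt_o1 (n : ℕ) : (n : Ordinal.{0}) < ω₁ :=
  (natCast_lt_omega0 n).trans omega0_lt_omega_one

/-- the point `n` of `[0,ω₁]` -/
def n1 (n : ℕ) : Set.Iic (ω₁ : Ordinal.{0}) := ⟨n, (nat_lt_o1 n).le⟩

/-- the point `n` of `[0,ω]` -/
def n0 (n : ℕ) : Set.Iic (ω : Ordinal.{0}) := ⟨n, (natCast_lt_omega0 n).le⟩

lemma isOpen_n1 (n : ℕ) : IsOpen ({n1 n} : Set (Set.Iic (ω₁ : Ordinal.{0}))) := by
  have h : IsOpen ({(n : Ordinal.{0})} : Set Ordinal.{0}) := by
    rw [SuccOrder.isOpen_singleton_iff]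
    intro hl
    exact not_isSuccLimit_nat n hl
  have h2 := h.preimage (continuous_subtype_val (p := fun x => x ∈ Set.Iic (ω₁ : Ordinal.{0})))
  convert h2 using 1
  ext x
  simp [n1, Subtype.ext_iff]

lemma isOpen_n0 (n : ℕ) : IsOpen ({n0 n} : Set (Set.Iic (ω : Ordinal.{0}))) := by
  have h : IsOpen ({(n : Ordinal.{0})} : Set Ordinal.{0}) := by
    rw [SuccOrder.isOpen_singleton_iff]
    intro hl
    exact not_isSuccLimit_nat n hl
  have h2 := h.preimage (continuous_subtype_val (p := fun x => x ∈ Set.Iic (ω : Ordinal.{0})))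
  convert h2 using 1
  ext x
  simp [n0, Subtype.ext_iff]

/-- the points `p = (0,0)` and `q = (1,0)` -/
def p : Plank := (n1 0, n0 0)
def q : Plank := (n1 1, n0 0)

lemma p_ne_q : p ≠ q := by
  intro h
  have h1 := congrArg (fun z : Plank => (z.1 : Ordinal.{0})) h
  simp [p, q, n1] at h1

lemma isOpen_p : IsOpen ({p} : Set Plank) := by
  rw [p, ← Set.singleton_prod_singleton]
  exact (isOpen_n1 0).prod (isOpen_n0 0)

lemma isOpen_q : IsOpen ({q} : Set Plank) := by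
  rw [q, ← Set.singleton_prod_singleton]
  exact (isOpen_n1 1).prod (isOpen_n0 0)

/-- an open set containing `(ω₁, m)` contains all `(β, m)` for large `β` -/
lemma slice_right {V : Set Plank} (hV : IsOpen V) {m : Set.Iic (ω : Ordinal.{0})}
    (h : (o1, m) ∈ V) : ∃ α : Ordinal.{0}, α < ω₁ ∧
      ∀ β : Set.Iic (ω₁ : Ordinal.{0}), α < β → (β, m) ∈ V := by
  have h1 : IsOpen ((fun β : Set.Iic (ω₁ : Ordinal.{0}) => ((β, m) : Plank)) ⁻¹' V) :=
    hV.preimage (by fun_prop)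
  obtain ⟨W, hW, hWe⟩ := isOpen_induced_iff.1 h1
  have h2 : (ω₁ : Ordinal.{0}) ∈ W := by
    have : o1 ∈ (Subtype.val ⁻¹' W : Set (Set.Iic (ω₁ : Ordinal.{0}))) := by
      rw [hWe]; exact h
    exact this
  obtain ⟨α, hα, hsub⟩ := exists_Ioc_subset_of_mem_nhds (hW.mem_nhds h2) ⟨0, omega_pos 1⟩
  refine ⟨α, hα, fun β hβ => ?_⟩
  have : β ∈ (Subtype.val ⁻¹' W : Set (Set.Iic (ω₁ : Ordinal.{0}))) := hsub ⟨hβ, β.2⟩
  rw [hWe] at this
  exact this

/-- an open set containing `(β, ω)` contains some `(β, n)` -/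
lemma slice_top {V : Set Plank} (hV : IsOpen V) {β : Set.Iic (ω₁ : Ordinal.{0})}
    (h : (β, o0) ∈ V) : ∃ n : ℕ, (β, n0 n) ∈ V := by
  have h1 : IsOpen ((fun m : Set.Iic (ω : Ordinal.{0}) => ((β, m) : Plank)) ⁻¹' V) :=
    hV.preimage (by fun_prop)
  obtain ⟨W, hW, hWe⟩ := isOpen_induced_iff.1 h1
  have h2 : (ω : Ordinal.{0}) ∈ W := by
    have : o0 ∈ (Subtype.val ⁻¹' W : Set (Set.Iic (ω : Ordinal.{0}))) := by
      rw [hWe]; exact h
    exact this
  obtain ⟨α, hα, hsub⟩ := exists_Ioc_subset_of_mem_nhds (hW.mem_nhds h2) ⟨0, omega0_pos⟩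
  obtain ⟨n, rfl⟩ := lt_omega0.1 hα
  refine ⟨n + 1, ?_⟩
  have : n0 (n + 1) ∈ (Subtype.val ⁻¹' W : Set (Set.Iic (ω : Ordinal.{0}))) :=
    hsub ⟨by show (n : Ordinal.{0}) < ((n + 1 : ℕ) : Ordinal.{0}); exact_mod_cast Nat.lt_succ_self n,
      (natCast_lt_omega0 _).le⟩
  rw [hWe] at this
  exact this

/-- the union of the right edge and the top edge -/
def A : Set Plank := {z | z.1 = o1 ∨ z.2 = o0}

lemma isClosed_A : IsClosed A := by
  have h1 : IsClosed {z : Plank | z.1 = o1} := isClosed_eq continuous_fst continuous_const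
  have h2 : IsClosed {z : Plank | z.2 = o0} := isClosed_eq continuous_snd continuous_const
  exact h1.union h2

/-- the set-valued map on `A` -/
def f (a : A) : Set Plank := {z | (z = p ∧ a.1.2 = o0) ∨ (z = q ∧ a.1.1 = o1)}

lemma f_subset (a : A) : f a ⊆ {p, q} := by
  rintro z (⟨h, -⟩ | ⟨h, -⟩)
  · left; exact h
  · right; exact h

lemma isUsc_f : IsUsc f := by
  refine ⟨fun a => ⟨?_, ?_⟩, fun U _ => ?_⟩
  · rcases a.2 with h | h
    · exact ⟨q, Or.inr ⟨rfl, h⟩⟩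
    · exact ⟨p, Or.inl ⟨rfl, h⟩⟩
  · exact ((Set.toFinite {p, q}).subset (f_subset a)).isClosed
  · -- the set is the complement of a closed set
    have h1 : IsClosed {a : A | a.1.2 = o0 ∧ p ∉ U} :=
      (isClosed_eq (by fun_prop) continuous_const).and isClosed_const
    have h2 : IsClosed {a : A | a.1.1 = o1 ∧ q ∉ U} :=
      (isClosed_eq (by fun_prop) continuous_const).and isClosed_const
    have h3 : {a : A | f a ⊆ U} = ({a : A | a.1.2 = o0 ∧ p ∉ U} ∪ {a : A | a.1.1 = o1 ∧ q ∉ U})ᶜ := by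
      ext a
      simp only [mem_ofPred_eq, mem_compl_iff, mem_union, not_or, not_and, not_not]
      constructor
      · intro h
        exact ⟨fun ha => h (Or.inl ⟨rfl, ha⟩), fun ha => h (Or.inr ⟨rfl, ha⟩)⟩
      · rintro ⟨ha, hb⟩ z (⟨rfl, hz⟩ | ⟨rfl, hz⟩)
        · exact ha hz
        · exact hb hz
    rw [h3]
    exact (h1.union h2).isOpen_compl

/-- The Tychonoff plank is not set-self-Tietze. -/
theorem result : ¬ SetSelfTietze Plank := by
  intro H
  obtain ⟨F, ⟨hF1, hF2⟩, hF3⟩ := H A isClosed_A f isUsc_f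
  -- values on the right edge
  have hright : ∀ n : ℕ, ∃ α : Ordinal.{0}, α < ω₁ ∧
      ∀ β : Set.Iic (ω₁ : Ordinal.{0}), α < β → F (β, n0 n) ⊆ {q} := by
    intro n
    have hA : ((o1, n0 n) : Plank) ∈ A := Or.inl rfl
    have h1 : F (o1, n0 n) ⊆ {q} := by
      have h2 := hF3 ⟨_, hA⟩
      rw [show F (o1, n0 n) = f ⟨_, hA⟩ from h2]
      rintro z (⟨-, hz⟩ | ⟨hz, -⟩)
      · exfalso
        have h3 : ((n0 n : Set.Iic (ω : Ordinal.{0})) : Ordinal.{0}) = ω := congrArg Subtype.val hz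
        exact (natCast_lt_omega0 n).ne h3
      · exact hz
    exact slice_right (V := {y | F y ⊆ {q}}) (hF2 _ isOpen_q) h1
  choose α hα1 hα2 using hright
  -- the supremum
  have hsup : iSup α < ω₁ := iSup_lt_omega_one hα1
  have hle : ∀ n, α n ≤ iSup α := fun n => Ordinal.le_iSup α n
  have hsucc : Order.succ (iSup α) < ω₁ := (Cardinal.isSuccLimit_omega 1).succ_lt hsup
  set β : Set.Iic (ω₁ : Ordinal.{0}) := ⟨Order.succ (iSup α), hsucc.le⟩ with hβ
  have hβq : ∀ n : ℕ, F (β, n0 n) ⊆ {q} := fun n =>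
    hα2 n β (lt_of_le_of_lt (hle n) (Order.lt_succ _))
  have hA : ((β, o0) : Plank) ∈ A := Or.inr rfl
  have h1 : F (β, o0) ⊆ {p} := by
    have h2 := hF3 ⟨_, hA⟩
    rw [show F (β, o0) = f ⟨_, hA⟩ from h2]
    rintro z (⟨hz, -⟩ | ⟨-, hz⟩)
    · exact hz
    · exfalso
      have h3 : Order.succ (iSup α) = ω₁ := congrArg Subtype.val hz
      exact hsucc.ne h3
  obtain ⟨n, hn⟩ := slice_top (V := {y | F y ⊆ {p}}) (hF2 _ isOpen_p) h1
  obtain ⟨z, hz⟩ := (hF1 (β, n0 n)).1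
  have hzp : z = p := hn hz
  have hzq : z = q := hβq n hz
  exact p_ne_q (hzp.symm.trans hzq)

end Pool.Agent.Results.MP_231ef3_gt.PlankNotSetSelfTietze
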